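import Pool.Agent.W46.HD.Stm

/-! HD-BASE: the base case. -/

set_option autoImplicit false

open Finset
open scoped Classical

namespace Pool.Agent.W505.HD

open Pool.Agent.W904.AK Pool.Agent.W46.HD

theorem BASE (hCOST : S_COST) (hG0 : S_G0) (hG1 : S_G1) (hPSI : S_PSI) :
    Pool.Agent.W46.HD.S_BASE := by
  intro d
  refine ⟨7 * d + 2, by positivity, ?_⟩
  intro n Ω _ A D hF p hp
  obtain ⟨hlam, hpsi⟩ := hPSI Ω n p hF.pos hp
  have hok : ∀ c, im p Prod.fst c = im p Prod.fst c := fun _ => rfl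
  set r := glue p p Prod.fst Prod.fst with hr
  have hrl : IsLaw r := glue_law hp hp hok
  -- total entropy
  have h1 : H r (fun z => (z.1, z.2)) = H p id + H p id - H p Prod.fst :=
    H_glue hp hp hok (u := id) (v := id) (fun _ _ _ _ h => congrArg Prod.fst h)
      (fun _ _ _ _ h => congrArg Prod.fst h)
  set f : (Ω × Fin n) × (Ω × Fin n) → (Fin n × (Fin d → ℤ)) × (Fin n × (Fin d → ℤ)) :=
    fun z => ((z.1.2, cell A D z.1.2 z.1.1), (z.2.2, cell A D z.2.2 z.2.1)) with hf
  set g : (Ω × Fin n) × (Ω × Fin n) → Ω := fun z => z.1.1 with hg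
  have h2 : H r (fun z => (z.1, z.2)) ≤ H r (fun z => (f z, g z)) := by
    refine H_mono hrl fun x y hx hy h => ?_
    have hx1 := (glue_supp hx).1
    have hy1 := (glue_supp hy).1
    have a1 : x.1.2 = y.1.2 := congrArg (fun q => q.1.1.1) h
    have a2 : x.2.2 = y.2.2 := congrArg (fun q => q.1.2.1) h
    have a3 : x.1.1 = y.1.1 := congrArg (fun q => q.2) h
    have a4 : x.2.1 = y.2.1 := by rw [← hx1, ← hy1, a3]
    exact Prod.ext (Prod.ext a3 a1) (Prod.ext a4 a2)
  have h3 : H r (fun z => (f z, g z)) ≤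
      H r f + ∑ z, r z * (d * (3 + psi n z.1.2 z.2.2)) := by
    refine hCOST _ _ _ r f g _ hrl fun x hx => ?_
    refine ⟨Finset.univ.filter fun ω => cell A D x.1.2 ω = cell A D x.1.2 x.1.1 ∧
      cell A D x.2.2 ω = cell A D x.2.2 x.2.1, ?_, ?_⟩
    · intro y hy h
      have hy1 := (glue_supp hy).1
      have a1 : y.1.2 = x.1.2 := congrArg (fun q => q.1.1) h
      have a2 : y.2.2 = x.2.2 := congrArg (fun q => q.2.1) h
      have a3 : cell A D y.1.2 y.1.1 = cell A D x.1.2 x.1.1 := congrArg (fun q => q.1.2) h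
      have a4 : cell A D y.2.2 y.2.1 = cell A D x.2.2 x.2.1 := congrArg (fun q => q.2.2) h
      rw [Finset.mem_filter]
      refine ⟨Finset.mem_univ _, ?_, ?_⟩
      · rw [← a1, a3, a1]
      · show cell A D x.2.2 y.1.1 = _
        rw [hy1, ← a4, a2]
    · exact hG1 d n Ω A D hF _ _ x.1.2.isLt x.2.2.isLt _ _ _ fun ω hω =>
        (Finset.mem_filter.mp hω).2
  have h4 : H r f ≤ H r (fun z => (z.1.2, cell A D z.1.2 z.1.1)) +
      H r (fun z => (z.2.2, cell A D z.2.2 z.2.1)) := by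
    refine subadd hrl fun x y _ _ h => ?_
    exact h
  have h5 : H r (fun z => (z.1.2, cell A D z.1.2 z.1.1)) =
      H p (fun z => (z.2, cell A D z.2 z.1)) :=
    H_glue_fst hp hok fun z => (z.2, cell A D z.2 z.1)
  have h6 : H r (fun z => (z.2.2, cell A D z.2.2 z.2.1)) =
      H p (fun z => (z.2, cell A D z.2 z.1)) :=
    H_glue_snd hp hok fun z => (z.2, cell A D z.2 z.1)
  have h7 : H p Prod.snd ≤ Real.log n := by
    have := H_le_log_card hp (Prod.snd : Ω × Fin n → Fin n) Finset.univ fun x _ =>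
      Finset.mem_univ _
    simpa using this
  have h8 : ∑ z, r z * (d * (3 + psi n z.1.2 z.2.2)) =
      d * (3 + ∑ z, r z * psi n z.1.2 z.2.2) := by
    have e : ∀ z, r z * (d * (3 + psi n z.1.2 z.2.2)) =
        3 * d * r z + d * (r z * psi n z.1.2 z.2.2) := fun z => by ring
    rw [Finset.sum_congr rfl fun z _ => e z, Finset.sum_add_distrib, ← Finset.mul_sum,
      ← Finset.mul_sum, hrl.total]
    ring
  have h9 : (d : ℝ) * (3 + ∑ z, r z * psi n z.1.2 z.2.2) ≤ d * (3 + (2 * lam p + 4)) := by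
    gcongr
  have hd : (0 : ℝ) ≤ d := by positivity
  have h10 : hh A D p = H p (fun z => (z.2, cell A D z.2 z.1)) - H p Prod.snd := rfl
  have h11 : lam p = Real.log n - (H p id - H p Prod.fst) := rfl
  have h12 : aa p = H p Prod.fst := rfl
  have h13 : 0 ≤ (d : ℝ) * lam p := mul_nonneg hd hlam
  rw [h12]
  rw [h8] at h3
  nlinarith

end Pool.Agent.W505.HD
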