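import Pool.Agent.W46.HD.Stm

/-! HD-GEO2: counting lemmas. -/

set_option autoImplicit false

open Finset
open scoped Classical

namespace Pool.Agent.W505.HD

open Pool.Agent.W904.AK Pool.Agent.W46.HD

lemma log8 : Real.log 8 ≤ 3 := by
  have h : Real.log 8 = 3 * Real.log 2 := by
    rw [show (8 : ℝ) = 2 ^ 3 by norm_num, Real.log_pow]
    push_cast
    ring
  have := Real.log_two_lt_d9
  rw [h]
  linarith

lemma log_mul_le {c x : ℝ} (hc : 0 < c) (hc8 : c ≤ 8) (hx : 0 < x) :
    Real.log (c * x) ≤ 3 + Real.log x := by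
  rw [Real.log_mul hc.ne' hx.ne']
  have := Real.log_le_log hc hc8
  linarith [log8]

lemma log_card_le {α : Type} (T : Finset α) {B : ℝ} (hB : 1 ≤ B) (h : (T.card : ℝ) ≤ B) :
    Real.log (T.card : ℝ) ≤ Real.log B := by
  rcases Nat.eq_zero_or_pos T.card with h0 | h0
  · rw [h0, Nat.cast_zero, Real.log_zero]
    exact Real.log_nonneg hB
  · exact Real.log_le_log (by exact_mod_cast h0) h

lemma card_floor {u v : ℝ} (h : u ≤ v) : (((Finset.Icc ⌊u⌋ ⌊v⌋).card : ℕ) : ℝ) ≤ v - u + 2 := by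
  rw [Int.card_Icc]
  have h1 : ⌊u⌋ ≤ ⌊v⌋ := Int.floor_le_floor h
  have h2 : (((⌊v⌋ + 1 - ⌊u⌋).toNat : ℕ) : ℤ) = ⌊v⌋ + 1 - ⌊u⌋ := Int.toNat_of_nonneg (by omega)
  have h3 : (((⌊v⌋ + 1 - ⌊u⌋).toNat : ℕ) : ℝ) = (⌊v⌋ : ℝ) + 1 - ⌊u⌋ := by exact_mod_cast h2
  rw [h3]
  have h4 := Int.floor_le v
  have h5 := Int.lt_floor_add_one u
  linarith

lemma card_ceil {u v : ℝ} (h : u ≤ v) : (((Finset.Icc ⌈u⌉ ⌊v⌋).card : ℕ) : ℝ) ≤ v - u + 1 := by
  rw [Int.card_Icc]
  rcases le_or_gt 0 (⌊v⌋ + 1 - ⌈u⌉) with h0 | h0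
  · have h2 : (((⌊v⌋ + 1 - ⌈u⌉).toNat : ℕ) : ℤ) = ⌊v⌋ + 1 - ⌈u⌉ := Int.toNat_of_nonneg h0
    have h3 : (((⌊v⌋ + 1 - ⌈u⌉).toNat : ℕ) : ℝ) = (⌊v⌋ : ℝ) + 1 - ⌈u⌉ := by exact_mod_cast h2
    rw [h3]
    have h4 := Int.floor_le v
    have h5 := Int.le_ceil u
    linarith
  · rw [Int.toNat_of_nonpos h0.le, Nat.cast_zero]
    linarith

lemma psi_self (n i : ℕ) : psi n i i = Real.log n := by
  unfold psi
  simp

lemma one_le_abs_sub {i j : ℕ} (h : i ≠ j) : 1 ≤ |(i : ℝ) - (j : ℝ)| := by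
  have h1 : ((i : ℤ) - (j : ℤ)) ≠ 0 := by omega
  have h2 := Int.one_le_abs h1
  have h3 : ((1 : ℤ) : ℝ) ≤ ((|(i : ℤ) - (j : ℤ)| : ℤ) : ℝ) := by exact_mod_cast h2
  push_cast at h3
  exact h3

lemma psi_ne {n i j : ℕ} (h : i ≠ j) : psi n i j = Real.log ((n : ℝ) / |(i : ℝ) - (j : ℝ)|) := by
  unfold psi
  rw [max_eq_right (one_le_abs_sub h)]

lemma abs_sub_le_n {n i j : ℕ} (hi : i < n) (hj : j < n) : |(i : ℝ) - (j : ℝ)| ≤ n := by
  have h1 : (i : ℝ) < n := by exact_mod_cast hi
  have h2 : (j : ℝ) < n := by exact_mod_cast hj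
  have h3 : (0 : ℝ) ≤ i := by positivity
  have h4 : (0 : ℝ) ≤ j := by positivity
  rw [abs_le]
  constructor <;> linarith

lemma one_le_ratio {n i j : ℕ} (hi : i < n) (hj : j < n) (h : i ≠ j) :
    1 ≤ (n : ℝ) / |(i : ℝ) - (j : ℝ)| := by
  have h1 := one_le_abs_sub h
  rw [le_div_iff₀ (by linarith), one_mul]
  exact abs_sub_le_n hi hj

lemma psi_nonneg {n i j : ℕ} (hi : i < n) (hj : j < n) : 0 ≤ psi n i j := by
  by_cases h : i = j
  · rw [h, psi_self]
    exact Real.log_nonneg (by exact_mod_cast (by omega : 1 ≤ n))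
  · rw [psi_ne h]
    exact Real.log_nonneg (one_le_ratio hi hj h)

lemma phi_nonneg (n : ℕ) (k : ℤ) : 0 ≤ phi n k := Real.log_nonneg (le_max_left _ _)

lemma phi_le {n : ℕ} {k : ℤ} {B : ℝ} (hB : 1 ≤ B) (h : (n : ℝ) / max 1 |(k : ℝ)| ≤ B) :
    phi n k ≤ Real.log B :=
  Real.log_le_log (lt_of_lt_of_le one_pos (le_max_left _ _)) (max_le hB h)

lemma phi_le_log {n : ℕ} (hn : 1 ≤ n) (k : ℤ) : phi n k ≤ Real.log n := by
  have hn' : (1 : ℝ) ≤ n := by exact_mod_cast hn
  refine phi_le hn' ?_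
  exact div_le_self (by positivity) (le_max_left _ _)

lemma round_bound (n : ℕ) {y0 : ℝ} (hy : 0 < |y0|) :
    (n : ℝ) / max 1 |((round y0 : ℤ) : ℝ)| ≤ 2 * (n / |y0|) := by
  have h1 : |y0| ≤ |((round y0 : ℤ) : ℝ)| + 1 / 2 := by
    have h2 := abs_sub_round y0
    have h3 : |y0| ≤ |((round y0 : ℤ) : ℝ)| + |y0 - round y0| := by
      calc |y0| = |((round y0 : ℤ) : ℝ) + (y0 - round y0)| := by congr 1; ring
        _ ≤ _ := abs_add_le _ _
    linarith
  have h4 : |((round y0 : ℤ) : ℝ)| ≤ max 1 |((round y0 : ℤ) : ℝ)| := le_max_right _ _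
  have h5 : (1 : ℝ) ≤ max 1 |((round y0 : ℤ) : ℝ)| := le_max_left _ _
  rw [mul_div_assoc', div_le_div_iff₀ (by linarith) hy]
  have h6 : (0 : ℝ) ≤ n := by positivity
  nlinarith

lemma round_abs_le (y0 : ℝ) : |((round y0 : ℤ) : ℝ)| ≤ |y0| + 1 / 2 := by
  have h2 := abs_sub_round y0
  calc |((round y0 : ℤ) : ℝ)| = |y0 - (y0 - round y0)| := by congr 1; ring
    _ ≤ |y0| + |y0 - round y0| := abs_sub _ _
    _ ≤ _ := by linarith

theorem G4 : S_G4 := by
  intro d ρ c1 c2
  have hρ := abs_nonneg ρ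
  have hρ1 : |1 - ρ| ≤ 1 + |ρ| := by
    have := abs_sub (1 : ℝ) ρ
    rwa [abs_one] at this
  refine ⟨Fintype.piFinset fun i => Finset.Icc ⌊ρ * c1 i + (1 - ρ) * c2 i - (3 + 3 * |ρ|)⌋
    ⌊ρ * c1 i + (1 - ρ) * c2 i + (3 + 3 * |ρ|)⌋, ?_, ?_⟩
  · intro x y e w hx hy he hw
    rw [Fintype.mem_piFinset]
    intro i
    rw [Finset.mem_Icc]
    obtain ⟨x1, x2⟩ := Int.floor_eq_iff.mp (hx i)
    obtain ⟨y1, y2⟩ := Int.floor_eq_iff.mp (hy i)
    have b1 : |ρ * (x i - c1 i)| ≤ |ρ| := by
      rw [abs_mul]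
      exact mul_le_of_le_one_right hρ (abs_le.mpr ⟨by linarith, by linarith⟩)
    have b2 : |(1 - ρ) * (y i - c2 i)| ≤ 1 + |ρ| := by
      rw [abs_mul]
      exact (mul_le_of_le_one_right (abs_nonneg _)
        (abs_le.mpr ⟨by linarith, by linarith⟩)).trans hρ1
    have b3 : |(1 - ρ) * e i| ≤ 1 + |ρ| := by
      rw [abs_mul]
      exact (mul_le_of_le_one_right (abs_nonneg _) (he i)).trans hρ1
    have b4 := abs_le.mp (hw i)
    have b1' := abs_le.mp b1
    have b2' := abs_le.mp b2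
    have b3' := abs_le.mp b3
    constructor
    · refine Int.floor_le_floor ?_
      nlinarith
    · refine Int.floor_le_floor ?_
      nlinarith
  · have hc : ((Fintype.piFinset fun i => Finset.Icc
        ⌊ρ * c1 i + (1 - ρ) * c2 i - (3 + 3 * |ρ|)⌋
        ⌊ρ * c1 i + (1 - ρ) * c2 i + (3 + 3 * |ρ|)⌋).card : ℝ) ≤ (8 * (1 + |ρ|)) ^ d := by
      rw [Fintype.card_piFinset, Nat.cast_prod]
      calc (∏ i, (((Finset.Icc ⌊ρ * c1 i + (1 - ρ) * c2 i - (3 + 3 * |ρ|)⌋
            ⌊ρ * c1 i + (1 - ρ) * c2 i + (3 + 3 * |ρ|)⌋).card : ℕ) : ℝ)) ≤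
            ∏ _i : Fin d, (8 * (1 + |ρ|)) := by
            refine Finset.prod_le_prod (fun i _ => by positivity) fun i _ => ?_
            refine (card_floor (by linarith)).trans ?_
            linarith
        _ = _ := by rw [Finset.prod_const, Finset.card_univ, Fintype.card_fin]
    have h1 : 1 ≤ (8 * (1 + |ρ|)) ^ d := one_le_pow₀ (by linarith)
    refine (log_card_le _ h1 hc).trans ?_
    rw [Real.log_pow]
    exact mul_le_mul_of_nonneg_left (log_mul_le (by norm_num) le_rfl (by linarith))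
      (by positivity)

/-- integers near a multiple -/
lemma near {a b z m : ℝ} (ha : 0 < |a|) (hb : 0 < |b|) (h : |z * a / b - m| ≤ 1 / 2) :
    m * b / a - |b| / (2 * |a|) ≤ z ∧ z ≤ m * b / a + |b| / (2 * |a|) := by
  have ha' : a ≠ 0 := abs_pos.mp ha
  have hb' : b ≠ 0 := abs_pos.mp hb
  have e : z - m * b / a = (z * a / b - m) * (b / a) := by field_simp
  have h1 : |z - m * b / a| ≤ 1 / 2 * (|b| / |a|) := by
    rw [e, abs_mul, abs_div]
    exact mul_le_mul_of_nonneg_right h (by positivity)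
  have e2 : 1 / 2 * (|b| / |a|) = |b| / (2 * |a|) := by field_simp
  rw [e2, abs_le] at h1
  constructor <;> linarith

theorem G5 : S_G5 := by
  intro n s1 v τ hs hv hτ m
  have hn1 : 1 ≤ n := by omega
  have hn : (1 : ℝ) ≤ n := by exact_mod_cast hn1
  have p1 := psi_nonneg hτ hv
  have p2 := psi_nonneg hτ hs
  by_cases h : τ = v ∨ τ = s1
  · refine ⟨Finset.Icc (-((n : ℤ) ^ 2 + 1)) ((n : ℤ) ^ 2 + 1), ?_, ?_⟩
    · intro y hy _
      rw [Finset.mem_Icc]
      exact abs_le.mp hy
    · have hc : (((Finset.Icc (-((n : ℤ) ^ 2 + 1)) ((n : ℤ) ^ 2 + 1)).card : ℕ) : ℝ) ≤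
          5 * (n : ℝ) ^ 2 := by
        rw [Int.card_Icc]
        have h2 : ((((n : ℤ) ^ 2 + 1 + 1 - -((n : ℤ) ^ 2 + 1)).toNat : ℕ) : ℤ) =
            (n : ℤ) ^ 2 + 1 + 1 - -((n : ℤ) ^ 2 + 1) :=
          Int.toNat_of_nonneg (by have : (0 : ℤ) ≤ (n : ℤ) ^ 2 := sq_nonneg _; linarith)
        have h3 : ((((n : ℤ) ^ 2 + 1 + 1 - -((n : ℤ) ^ 2 + 1)).toNat : ℕ) : ℝ) =
            (n : ℝ) ^ 2 + 1 + 1 - -((n : ℝ) ^ 2 + 1) := by exact_mod_cast h2
        rw [h3]
        nlinarith
      refine (log_card_le _ (by nlinarith) hc).trans ?_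
      refine (log_mul_le (by norm_num) (by norm_num) (by positivity)).trans ?_
      rw [Real.log_pow]
      push_cast
      rcases h with h | h
      · have e : psi n τ v = Real.log n := by rw [h, psi_self]
        linarith
      · have e : psi n τ s1 = Real.log n := by rw [h, psi_self]
        linarith
  · push Not at h
    have ha := one_le_abs_sub h.1
    have hb := one_le_abs_sub h.2
    have hbn := abs_sub_le_n hτ hs
    have han := one_le_ratio hτ hv h.1
    refine ⟨Finset.Icc ⌈(m : ℝ) * ((τ : ℝ) - s1) / ((τ : ℝ) - v) -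
        |(τ : ℝ) - s1| / (2 * |(τ : ℝ) - v|)⌉ ⌊(m : ℝ) * ((τ : ℝ) - s1) / ((τ : ℝ) - v) +
        |(τ : ℝ) - s1| / (2 * |(τ : ℝ) - v|)⌋, ?_, ?_⟩
    · intro y _ hy
      have h1 : |(y : ℝ) * ((τ : ℝ) - v) / ((τ : ℝ) - s1) - m| ≤ 1 / 2 := by
        rw [← hy]
        exact abs_sub_round _
      obtain ⟨h2, h3⟩ := near (by linarith) (by linarith) h1
      rw [Finset.mem_Icc]
      exact ⟨Int.ceil_le.mpr h2, Int.le_floor.mpr h3⟩
    · have hc : (((Finset.Icc ⌈(m : ℝ) * ((τ : ℝ) - s1) / ((τ : ℝ) - v) -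
        |(τ : ℝ) - s1| / (2 * |(τ : ℝ) - v|)⌉ ⌊(m : ℝ) * ((τ : ℝ) - s1) / ((τ : ℝ) - v) +
        |(τ : ℝ) - s1| / (2 * |(τ : ℝ) - v|)⌋).card : ℕ) : ℝ) ≤
          2 * ((n : ℝ) / |(τ : ℝ) - v|) := by
        have h0 : 0 ≤ |(τ : ℝ) - s1| / (2 * |(τ : ℝ) - v|) := by positivity
        refine (card_ceil (by linarith)).trans ?_
        have h1 : |(τ : ℝ) - s1| / (2 * |(τ : ℝ) - v|) ≤ (1 / 2) * ((n : ℝ) / |(τ : ℝ) - v|) := by
          rw [mul_div_assoc', div_le_div_iff₀ (by linarith) (by linarith)]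
          nlinarith
        linarith
      refine (log_card_le _ (by linarith) hc).trans ?_
      refine (log_mul_le (by norm_num) (by norm_num) (by linarith)).trans ?_
      rw [← psi_ne h.1]
      linarith

theorem G6 : S_G6 := by
  intro n s0 s1 t hs0 hs1 ht y
  have hn1 : 1 ≤ n := by omega
  have hn : (1 : ℝ) ≤ n := by exact_mod_cast hn1
  have p1 := psi_nonneg ht hs1
  have p2 := psi_nonneg ht hs0
  by_cases h : t = s1 ∨ t = s0
  · refine ⟨Finset.univ, fun _ _ => Finset.mem_univ _, ?_⟩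
    rw [Finset.card_univ, Fintype.card_fin]
    rcases h with h | h
    · have e : psi n t s1 = Real.log n := by rw [h, psi_self]
      linarith
    · have e : psi n t s0 = Real.log n := by rw [h, psi_self]
      linarith
  · push Not at h
    have ha := one_le_abs_sub h.1
    have hb := one_le_abs_sub h.2
    have hbn := abs_sub_le_n ht hs0
    have han := one_le_ratio ht hs1 h.1
    set u : ℝ := (y : ℝ) * ((t : ℝ) - s0) / ((t : ℝ) - s1) - |(t : ℝ) - s0| / (2 * |(t : ℝ) - s1|)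
      with hu
    set w : ℝ := (y : ℝ) * ((t : ℝ) - s0) / ((t : ℝ) - s1) + |(t : ℝ) - s0| / (2 * |(t : ℝ) - s1|)
      with hw
    refine ⟨Finset.univ.filter fun t' : Fin n => u ≤ ((t' : ℕ) : ℝ) - s0 ∧
      ((t' : ℕ) : ℝ) - s0 ≤ w, ?_, ?_⟩
    · intro t' ht'
      have h1 : |(((t' : ℕ) : ℝ) - s0) * ((t : ℝ) - s1) / ((t : ℝ) - s0) - y| ≤ 1 / 2 := by
        rw [← ht']
        exact abs_sub_round _
      obtain ⟨h2, h3⟩ := near (by linarith) (by linarith) h1
      rw [Finset.mem_filter]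
      exact ⟨Finset.mem_univ _, h2, h3⟩
    · have h0 : 0 ≤ |(t : ℝ) - s0| / (2 * |(t : ℝ) - s1|) := by positivity
      have hcard : (Finset.univ.filter fun t' : Fin n => u ≤ ((t' : ℕ) : ℝ) - s0 ∧
          ((t' : ℕ) : ℝ) - s0 ≤ w).card ≤ (Finset.Icc ⌈u⌉ ⌊w⌋).card := by
        refine Finset.card_le_card_of_injOn (fun t' => ((t' : ℕ) : ℤ) - s0) ?_ ?_
        · intro t' ht'
          rw [Finset.mem_coe, Finset.mem_filter] at ht'
          rw [Finset.mem_coe, Finset.mem_Icc]
          refine ⟨Int.ceil_le.mpr ?_, Int.le_floor.mpr ?_⟩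
          · push_cast
            exact ht'.2.1
          · push_cast
            exact ht'.2.2
        · intro x _ z _ hxz
          have : ((x : ℕ) : ℤ) - s0 = ((z : ℕ) : ℤ) - s0 := hxz
          exact Fin.ext (by omega)
      have hc : ((Finset.univ.filter fun t' : Fin n => u ≤ ((t' : ℕ) : ℝ) - s0 ∧
          ((t' : ℕ) : ℝ) - s0 ≤ w).card : ℝ) ≤ 2 * ((n : ℝ) / |(t : ℝ) - s1|) := by
        have h2 : ((Finset.univ.filter fun t' : Fin n => u ≤ ((t' : ℕ) : ℝ) - s0 ∧
          ((t' : ℕ) : ℝ) - s0 ≤ w).card : ℝ) ≤ ((Finset.Icc ⌈u⌉ ⌊w⌋).card : ℝ) := by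
          exact_mod_cast hcard
        refine h2.trans ((card_ceil (by linarith)).trans ?_)
        have h1 : |(t : ℝ) - s0| / (2 * |(t : ℝ) - s1|) ≤ (1 / 2) * ((n : ℝ) / |(t : ℝ) - s1|) := by
          rw [mul_div_assoc', div_le_div_iff₀ (by linarith) (by linarith)]
          nlinarith
        linarith
      refine (log_card_le _ (by linarith) hc).trans ?_
      refine (log_mul_le (by norm_num) (by norm_num) (by linarith)).trans ?_
      rw [← psi_ne h.1]
      linarith

theorem G9 : S_G9 := by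
  intro n s0 s1 t t' v τ hs0 hs1 ht ht' hv hτ
  have hn1 : 1 ≤ n := by omega
  have hn : (1 : ℝ) ≤ n := by exact_mod_cast hn1
  have p1 := psi_nonneg ht' hs0
  have p2 := psi_nonneg ht hs1
  have p3 := psi_nonneg ht hs0
  have p4 := psi_nonneg hτ hv
  have p5 := psi_nonneg hτ hs1
  set y0 : ℝ := ((t' : ℝ) - s0) * ((t : ℝ) - s1) / ((t : ℝ) - s0) with hy0
  have hyy : yy s0 s1 t t' = round y0 := rfl
  have b1 := abs_sub_le_n ht' hs0
  have b2 := abs_sub_le_n ht hs1
  have b3 := abs_sub_le_n ht hs0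
  have hy0abs : |y0| = |(t' : ℝ) - s0| * |(t : ℝ) - s1| / |(t : ℝ) - s0| := by
    rw [hy0, abs_div, abs_mul]
  have hy0le : t ≠ s0 → |y0| ≤ n * (n / |(t : ℝ) - s0|) := by
    intro h
    have c1 := one_le_abs_sub h
    rw [hy0abs, mul_div_assoc', div_le_div_iff_of_pos_right (by linarith)]
    exact mul_le_mul b1 b2 (abs_nonneg _) (by linarith)
  refine ⟨?_, ?_, ?_, ?_⟩
  · -- size
    have h1 : ((|yy s0 s1 t t'| : ℤ) : ℝ) ≤ (((n : ℤ) ^ 2 + 1 : ℤ) : ℝ) := by
      push_cast
      rw [hyy]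
      refine (round_abs_le y0).trans ?_
      by_cases h : t = s0
      · have : y0 = 0 := by rw [hy0, h]; simp
        rw [this, abs_zero]
        nlinarith
      · have h2 := hy0le h
        have h3 : (n : ℝ) / |(t : ℝ) - s0| ≤ n := div_le_self (by linarith) (one_le_abs_sub h)
        nlinarith
    exact_mod_cast h1
  · rw [hyy]
    by_cases h : t = s0 ∨ t' = s0 ∨ t = s1
    · have h1 := phi_le_log hn1 (round y0)
      rcases h with h | h | h
      · rw [h, psi_self] at p3
        rw [h, psi_self]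
        rw [h] at p2
        linarith
      · have e : psi n t' s0 = Real.log n := by rw [h, psi_self]
        rw [e]
        linarith
      · have e : psi n t s1 = Real.log n := by rw [h, psi_self]
        rw [e]
        linarith
    · push Not at h
      have c1 := one_le_abs_sub h.1
      have c2 := one_le_abs_sub h.2.1
      have c3 := one_le_abs_sub h.2.2
      have r1 := one_le_ratio ht' hs0 h.2.1
      have r2 := one_le_ratio ht hs1 h.2.2
      have hpos : 0 < |y0| := by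
        rw [hy0abs]
        exact div_pos (mul_pos (by linarith) (by linarith)) (by linarith)
      have hB : (n : ℝ) / max 1 |((round y0 : ℤ) : ℝ)| ≤
          2 * ((n : ℝ) / |(t' : ℝ) - s0| * (n / |(t : ℝ) - s1|)) := by
        refine (round_bound n hpos).trans ?_
        refine mul_le_mul_of_nonneg_left ?_ (by norm_num)
        rw [hy0abs, div_div_eq_mul_div, div_mul_div_comm,
          div_le_div_iff_of_pos_right (mul_pos (by linarith) (by linarith))]
        exact mul_le_mul_of_nonneg_left b3 (by linarith)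
      have hrr : 1 ≤ (n : ℝ) / |(t' : ℝ) - s0| * (n / |(t : ℝ) - s1|) :=
        one_le_mul_of_one_le_of_one_le r1 r2
      refine (phi_le (by linarith) hB).trans ?_
      refine (log_mul_le (by norm_num) (by norm_num) (by linarith)).trans ?_
      rw [Real.log_mul (by linarith) (by linarith), ← psi_ne h.2.1, ← psi_ne h.2.2]
      linarith
  · rw [hyy]
    by_cases h : t = s0
    · have : y0 = 0 := by rw [hy0, h]; simp
      rw [this]
      simp only [round_zero, Int.cast_zero, abs_zero, zero_div, add_zero, Real.log_one]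
      linarith
    · have h2 := hy0le h
      have r := one_le_ratio ht hs0 h
      have h3 : |((round y0 : ℤ) : ℝ)| / n ≤ n / |(t : ℝ) - s0| + 1 / 2 := by
        rw [div_le_iff₀ (by linarith)]
        refine (round_abs_le y0).trans ?_
        nlinarith
      have h4 : 1 + |((round y0 : ℤ) : ℝ)| / n ≤ (5 / 2) * (n / |(t : ℝ) - s0|) := by linarith
      refine (Real.log_le_log (by positivity) h4).trans ?_
      refine (log_mul_le (by norm_num) (by norm_num) (by linarith)).trans ?_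
      rw [← psi_ne h]
  · intro y
    set z0 : ℝ := (y : ℝ) * ((τ : ℝ) - v) / ((τ : ℝ) - s1) with hz0
    have hmm : mm s1 v τ y = round z0 := rfl
    have d1 := abs_sub_le_n hτ hv
    have d2 := abs_sub_le_n hτ hs1
    have q1 := phi_nonneg n y
    have hz0abs : |z0| = |(y : ℝ)| * |(τ : ℝ) - v| / |(τ : ℝ) - s1| := by
      rw [hz0, abs_div, abs_mul]
    constructor
    · rw [hmm]
      by_cases h : τ = v ∨ τ = s1 ∨ y = 0
      · have h1 := phi_le_log hn1 (round z0)
        rcases h with h | h | h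
        · have e : psi n τ v = Real.log n := by rw [h, psi_self]
          rw [e]
          linarith
        · have e : psi n τ s1 = Real.log n := by rw [h, psi_self]
          rw [e]
          linarith
        · have e : phi n y = Real.log n := by
            rw [h]
            unfold phi
            rw [Int.cast_zero, abs_zero, max_eq_left zero_le_one, div_one, max_eq_right hn]
          rw [e]
          linarith
      · push Not at h
        have c1 := one_le_abs_sub h.1
        have c2 := one_le_abs_sub h.2.1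
        have c3 : (1 : ℝ) ≤ |(y : ℝ)| := by
          have := Int.one_le_abs h.2.2
          exact_mod_cast this
        have r1 := one_le_ratio hτ hv h.1
        have hpos : 0 < |z0| := by
          rw [hz0abs]
          exact div_pos (mul_pos (by linarith) (by linarith)) (by linarith)
        have hB : (n : ℝ) / max 1 |((round z0 : ℤ) : ℝ)| ≤
            2 * (max 1 ((n : ℝ) / max 1 |(y : ℝ)|) * (n / |(τ : ℝ) - v|)) := by
          refine (round_bound n hpos).trans ?_
          refine mul_le_mul_of_nonneg_left ?_ (by norm_num)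
          have h1 : (n : ℝ) / |z0| ≤ (n / |(y : ℝ)|) * (n / |(τ : ℝ) - v|) := by
            rw [hz0abs, div_div_eq_mul_div, div_mul_div_comm,
              div_le_div_iff_of_pos_right (mul_pos (by linarith) (by linarith))]
            exact mul_le_mul_of_nonneg_left d2 (by linarith)
          refine h1.trans (mul_le_mul_of_nonneg_right ?_ (by linarith))
          rw [max_eq_right c3]
          exact le_max_right _ _
        have hm1 : (1 : ℝ) ≤ max 1 ((n : ℝ) / max 1 |(y : ℝ)|) := le_max_left _ _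
        have hrr : 1 ≤ max 1 ((n : ℝ) / max 1 |(y : ℝ)|) * (n / |(τ : ℝ) - v|) :=
          one_le_mul_of_one_le_of_one_le hm1 r1
        refine (phi_le (by linarith) hB).trans ?_
        refine (log_mul_le (by norm_num) (by norm_num) (by linarith)).trans ?_
        rw [Real.log_mul (by linarith) (by linarith), ← psi_ne h.1]
        have e : phi n y = Real.log (max 1 ((n : ℝ) / max 1 |(y : ℝ)|)) := rfl
        rw [e]
        linarith
    · rw [hmm]
      have hy1 : (0 : ℝ) ≤ |(y : ℝ)| / n := by positivity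
      have hy2 : 0 ≤ Real.log (1 + |(y : ℝ)| / n) := Real.log_nonneg (by linarith)
      by_cases h : τ = s1
      · have : z0 = 0 := by rw [hz0, h]; simp
        rw [this]
        simp only [round_zero, Int.cast_zero, abs_zero, zero_div, add_zero, Real.log_one]
        linarith
      · have c2 := one_le_abs_sub h
        have r := one_le_ratio hτ hs1 h
        have h2 : |z0| ≤ |(y : ℝ)| * (n / |(τ : ℝ) - s1|) := by
          rw [hz0abs, mul_div_assoc', div_le_div_iff_of_pos_right (by linarith)]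
          exact mul_le_mul_of_nonneg_left d1 (abs_nonneg _)
        have h3 : |((round z0 : ℤ) : ℝ)| / n ≤
            |(y : ℝ)| / n * (n / |(τ : ℝ) - s1|) + 1 / 2 := by
          have h5 := round_abs_le z0
          have h6 : |(y : ℝ)| / n * (n / |(τ : ℝ) - s1|) + 1 / 2 =
              (|(y : ℝ)| * (n / |(τ : ℝ) - s1|) + n / 2) / n := by
            field_simp
          rw [h6, div_le_div_iff_of_pos_right (by linarith)]
          linarith
        have h4 : 1 + |((round z0 : ℤ) : ℝ)| / n ≤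
            (3 / 2) * ((1 + |(y : ℝ)| / n) * (n / |(τ : ℝ) - s1|)) := by
          have h7 : 0 ≤ |(y : ℝ)| / n * (n / |(τ : ℝ) - s1|) := by positivity
          nlinarith
        refine (Real.log_le_log (by positivity) h4).trans ?_
        refine (log_mul_le (by norm_num) (by norm_num) (by positivity)).trans ?_
        rw [Real.log_mul (by positivity) (by linarith), ← psi_ne h]
        linarith

end Pool.Agent.W505.HD
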