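import Pool.Agent.W46.HD.Stm

/-! HD-OCOND: the conditional oracle. -/

set_option autoImplicit false

open Finset
open scoped Classical

namespace Pool.Agent.W505.HD

open Pool.Agent.W904.AK Pool.Agent.W46.HD

theorem OCOND : S_OCOND := by
  intro d n Ω _ A D b C hO Θ _ γ q l j Q hq
  have e0 := chain hq Q l
  have e1 := chain hq Q (fun z => (j z, cell A D (j z) (l z)))
  have e2 := chain hq Q j
  have e3 := chain hq Q (fun z => (l z, j z))
  have key : ∀ x, q x * H (cd q Q (Q x)) l ≤
      b * (q x * H (cd q Q (Q x)) (fun z => (j z, cell A D (j z) (l z))) -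
        q x * H (cd q Q (Q x)) j) +
      C * (q x * (1 + Real.log n) - (q x * H (cd q Q (Q x)) (fun z => (l z, j z)) -
        q x * H (cd q Q (Q x)) l)) := by
    intro x
    by_cases hx : q x = 0
    · simp [hx]
    · have hlaw : IsLaw (cd q Q (Q x)) := cd_law hq Q (im_pos hq Q hx).ne'
      have h1 := hO (im (cd q Q (Q x)) fun z => (l z, j z)) (hlaw.im _)
      unfold aa hh lam at h1
      simp only [H_im, id_eq] at h1
      have h2 := mul_le_mul_of_nonneg_left h1 (hq.nonneg x)
      refine h2.trans (le_of_eq ?_)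
      ring
  have hsum := Finset.sum_le_sum fun x (_ : x ∈ (Finset.univ : Finset Θ)) => key x
  rw [Finset.sum_add_distrib, ← Finset.mul_sum, ← Finset.mul_sum, Finset.sum_sub_distrib,
    Finset.sum_sub_distrib, Finset.sum_sub_distrib, ← Finset.sum_mul, hq.total, ← e0, ← e1, ← e2,
    ← e3] at hsum
  refine hsum.trans (le_of_eq ?_)
  ring

end Pool.Agent.W505.HD
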